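import Pool.Agent.N869.QT.G.Stm

/-!
# Project QT: multiquadratic colours (`S_MQ` of `Pool/Agent/N869/QT/G/Stm.lean`)
-/

set_option autoImplicit false

open scoped Classical

namespace Pool.Agent.N637.QT.MQ

open Finset
open Pool.Agent.N869.QT.L (Fam)
open Pool.Agent.N869.QT.G

variable {n : ℕ}

theorem single_mem_ET {T : Qn n} {i : Fin n} :
    (⟨{i}, singleton_nonempty i⟩ : Qn n) ∈ ET T ↔ i ∈ T.1 := by
  unfold ET
  rw [mem_filter]
  by_cases h : i ∈ T.1
  · simp [h, Finset.singleton_inter_of_mem]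
  · simp [h, Finset.singleton_inter_of_notMem]

theorem ET_inj : Function.Injective (ET (n := n)) := by
  intro _ _ h
  apply Subtype.ext
  ext i
  rw [← single_mem_ET, ← single_mem_ET, h]

theorem ET_ne (T : Qn n) : (ET T).Nonempty := by
  obtain ⟨i, hi⟩ := T.2
  exact ⟨_, single_mem_ET.2 hi⟩

theorem ET_ne_univ (hn : 2 ≤ n) (T : Qn n) : ET T ≠ univ := by
  intro h
  have h1 : ∀ i, i ∈ T.1 := fun i => single_mem_ET.1 (by rw [h]; exact mem_univ _)
  have h2 : T.1 = univ := by
    ext i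
    simp [h1 i]
  let a : Fin n := ⟨0, by omega⟩
  let b : Fin n := ⟨1, by omega⟩
  have hab : a ≠ b := by
    intro h
    have := congrArg Fin.val h
    simp [a, b] at this
  have h3 : (⟨{a, b}, ⟨a, by simp⟩⟩ : Qn n) ∈ ET T := by rw [h]; exact mem_univ _
  unfold ET at h3
  rw [mem_filter, h2] at h3
  simp only [inter_univ] at h3
  rw [card_pair hab] at h3
  exact absurd h3.2 (by decide)

theorem fam_ET (𝒯 : Finset (Qn n)) : Fam (fun T : 𝒯 => ET T.1) where
  inj := fun _ _ h => Subtype.ext (ET_inj h)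
  ne := fun T => ET_ne T.1

/-- the indicator of a set of indices -/
noncomputable def ind (s : Finset (Fin n)) (i : Fin n) : ZMod 2 := if i ∈ s then 1 else 0

theorem odd_ind (q T : Finset (Fin n)) :
    (if Odd (q ∩ T).card then (1 : ZMod 2) else 0) = ∑ i ∈ T, ind q i := by
  have h1 : ∑ i ∈ T, ind q i = ((q ∩ T).card : ZMod 2) := by
    unfold ind
    rw [← sum_filter, sum_const, nsmul_eq_mul, mul_one]
    congr 2
    ext i
    simp [and_comm]
  rw [h1]
  split_ifs with h
  · obtain ⟨k, hk⟩ := h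
    rw [hk]
    push_cast
    rw [show (2 : ZMod 2) = 0 from rfl]
    ring
  · rw [Nat.not_odd_iff_even] at h
    obtain ⟨k, hk⟩ := h
    rw [hk]
    push_cast
    exact (CharTwo.add_self_eq_zero _).symm

/-- the vector of a colouring -/
noncomputable def vec {R : Type} (tt : R → ZMod 2) (γ : R → Qn n) (S : Finset R) (i : Fin n) :
    ZMod 2 := ∑ π ∈ S, tt π * ind (γ π).1 i

theorem clc_of_vec {R : Type} {tt : R → ZMod 2} {γ : R → Qn n} {S : Finset R}
    (h : ∀ i, vec tt γ S i = 0) : ClC tt γ ET S := by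
  intro T
  unfold sys
  rw [sum_filter]
  refine (sum_congr rfl (g := fun π => ∑ i ∈ T.1, tt π * ind (γ π).1 i) fun π _ => ?_).trans ?_
  · rw [← mul_sum, ← odd_ind]
    have : γ π ∈ ET T ↔ Odd ((γ π).1 ∩ T.1).card := by
      unfold ET
      simp
    by_cases h2 : Odd ((γ π).1 ∩ T.1).card
    · rw [if_pos (this.2 h2), if_pos h2, mul_one]
    · rw [if_neg (fun h => h2 (this.1 h)), if_neg h2, mul_zero]
  · rw [sum_comm]
    exact sum_eq_zero fun i _ => h i

/-- two colours with a given sum -/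
theorem exists_pair (hn : 2 ≤ n) (v : Fin n → ZMod 2) :
    ∃ q : Qn n × Qn n, ∀ i, ind q.1.1 i + ind q.2.1 i = v i := by
  let s : Finset (Fin n) := univ.filter fun i => v i = 1
  let a : Fin n := ⟨0, by omega⟩
  let b : Fin n := ⟨1, by omega⟩
  have hab : a ≠ b := by
    intro h
    have := congrArg Fin.val h
    simp [a, b] at this
  obtain ⟨q, hq, hqs⟩ : ∃ q : Finset (Fin n), q.Nonempty ∧ q ≠ s := by
    by_cases h : s = {a}
    · refine ⟨{b}, singleton_nonempty b, ?_⟩
      rw [h]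
      intro h'
      exact hab (singleton_injective h').symm
    · exact ⟨{a}, singleton_nonempty a, fun h' => h h'.symm⟩
  have hne : (symmDiff q s).Nonempty := by
    rw [nonempty_iff_ne_empty]
    intro h
    exact hqs (symmDiff_eq_bot.1 h)
  refine ⟨(⟨q, hq⟩, ⟨symmDiff q s, hne⟩), fun i => ?_⟩
  have hv : v i = 0 ∨ v i = 1 := by
    generalize v i = x
    revert x
    decide
  unfold ind
  simp only [mem_symmDiff]
  have hs : i ∈ s ↔ v i = 1 := by simp [s]
  have h11 : (1 : ZMod 2) + 1 = 0 := rfl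
  rcases hv with h | h
  · have h1 : i ∉ s := by rw [hs, h]; decide
    by_cases h2 : i ∈ q
    · simp [h1, h2, h, h11]
    · simp [h1, h2, h]
  · have h1 : i ∈ s := by rw [hs, h]
    by_cases h2 : i ∈ q
    · simp [h1, h2, h]
    · simp [h1, h2, h]

theorem mem_sys {R I Q : Type} {γ : R → Q} {E : I → Finset Q} {S : Finset R} {a : I} {π : R} :
    π ∈ sys γ E S a ↔ π ∈ S ∧ γ π ∈ E a := by
  unfold sys
  exact mem_filter

theorem exC_apply {R Q : Type} [Nonempty Q] {S : Finset R} {c : S → Q} {π : R} (h : π ∈ S) :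
    exC S c π = c ⟨π, h⟩ := by
  unfold exC
  rw [dif_pos h]

/-- the class is a positive proportion -/
theorem card_class {R : Type} (tt : R → ZMod 2) (S : Finset R) (hn : 2 ≤ n) [Nonempty (Qn n)]
    (h2 : 2 ≤ (S.filter fun π => tt π = 1).card) :
    Fintype.card (Qn n) ^ S.card ≤
      (univ.filter fun c : S → Qn n => ClC tt (exC S c) ET S).card *
        (Fintype.card (Qn n) * Fintype.card (Qn n)) := by
  obtain ⟨p1, hp1, p2, hp2, hne⟩ := one_lt_card.1 (show 1 < (S.filter fun π => tt π = 1).card from h2)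
  rw [mem_filter] at hp1 hp2
  choose qq hqq using exists_pair (n := n) hn
  let P1 : S := ⟨p1, hp1.1⟩
  let P2 : S := ⟨p2, hp2.1⟩
  have hP : P1 ≠ P2 := fun h => hne (congrArg Subtype.val h)
  -- the vector of the other elements
  let v : (S → Qn n) → Fin n → ZMod 2 := fun c i =>
    ∑ π ∈ (univ.erase P1).erase P2, tt π.1 * ind (c π).1 i
  let Φ : (S → Qn n) → (S → Qn n) := fun c =>
    Function.update (Function.update c P1 (qq (v c)).1) P2 (qq (v c)).2
  have hΦ : ∀ c, ClC tt (exC S (Φ c)) ET S := by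
    intro c
    apply clc_of_vec
    intro i
    unfold vec
    have e1 : ∑ π ∈ S, tt π * ind (exC S (Φ c) π).1 i =
        ∑ π : S, tt π.1 * ind (Φ c π).1 i := by
      rw [← sum_coe_sort S]
      refine sum_congr rfl fun π _ => ?_
      rw [exC_apply π.2]
    rw [e1, ← add_sum_erase univ _ (mem_univ P1),
      ← add_sum_erase (univ.erase P1) _ (mem_erase.2 ⟨hP.symm, mem_univ P2⟩)]
    have e2 : Φ c P1 = (qq (v c)).1 := by
      simp only [Φ]
      rw [Function.update_of_ne hP, Function.update_self]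
    have e3 : Φ c P2 = (qq (v c)).2 := by
      simp only [Φ]
      rw [Function.update_self]
    have e4 : ∑ π ∈ (univ.erase P1).erase P2, tt π.1 * ind (Φ c π).1 i = v c i := by
      refine sum_congr rfl fun π hπ => ?_
      rw [mem_erase, mem_erase] at hπ
      have : Φ c π = c π := by
        simp only [Φ]
        rw [Function.update_of_ne hπ.1, Function.update_of_ne hπ.2.1]
      rw [this]
    have t1 : tt P1.1 = 1 := hp1.2
    have t2 : tt P2.1 = 1 := hp2.2
    rw [e2, e3, e4, t1, t2, one_mul, one_mul, ← add_assoc, hqq (v c) i]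
    exact CharTwo.add_self_eq_zero _
  have hinj : Function.Injective fun c : S → Qn n => (Φ c, c P1, c P2) := by
    intro c c' h
    simp only [Prod.mk.injEq] at h
    obtain ⟨h1, h3, h4⟩ := h
    funext π
    by_cases hπ1 : π = P1
    · rw [hπ1, h3]
    by_cases hπ2 : π = P2
    · rw [hπ2, h4]
    have e : ∀ c, Φ c π = c π := by
      intro c
      simp only [Φ]
      rw [Function.update_of_ne hπ2, Function.update_of_ne hπ1]
    rw [← e c, ← e c', h1]
  have h5 := card_le_card_of_injOn (s := (univ : Finset (S → Qn n)))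
    (t := (univ.filter fun c : S → Qn n => ClC tt (exC S c) ET S) ×ˢ (univ : Finset (Qn n × Qn n)))
    (fun c : S → Qn n => (Φ c, c P1, c P2)) (fun c _ => by
      simp only [coe_product, Set.mem_prod, mem_coe, mem_filter, mem_univ, true_and, and_true]
      exact hΦ c) (fun a _ b _ h => hinj h)
  rw [card_product, card_univ, card_univ, Fintype.card_prod, Fintype.card_fun, Fintype.card_coe] at h5
  exact h5

theorem pr_class {R : Type} (tt : R → ZMod 2) (S : Finset R) (hn : 2 ≤ n) [Nonempty (Qn n)]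
    (h2 : 2 ≤ (S.filter fun π => tt π = 1).card) :
    1 / (Fintype.card (Qn n) : ℝ) ^ 2 ≤ pr S (fun γ : R → Qn n => ClC tt γ ET S) := by
  have h := card_class tt S hn h2
  have hq : (0 : ℝ) < Fintype.card (Qn n) := by exact_mod_cast Fintype.card_pos
  unfold pr
  rw [div_le_div_iff₀ (by positivity) (by positivity), one_mul]
  have h' : ((Fintype.card (Qn n) ^ S.card : ℕ) : ℝ) ≤
      ((univ.filter fun c : S → Qn n => ClC tt (exC S c) ET S).card *
        (Fintype.card (Qn n) * Fintype.card (Qn n)) : ℕ) := by exact_mod_cast h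
  push_cast at h'
  rw [sq]
  exact h'

theorem pr_mono {R Q : Type} [Fintype Q] [Nonempty Q] {S : Finset R} {P P' : (R → Q) → Prop}
    (h : ∀ γ, P γ → P' γ) : pr S P ≤ pr S P' := by
  unfold pr
  have h1 : (univ.filter fun c : S → Q => P (exC S c)) ⊆
      univ.filter fun c : S → Q => P' (exC S c) := by
    intro c hc
    rw [mem_filter] at hc ⊢
    exact ⟨hc.1, h _ hc.2⟩
  have h2 := card_le_card h1
  have hq : (0 : ℝ) < Fintype.card Q := by exact_mod_cast Fintype.card_pos
  gcongr

/-- degenerate colourings -/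
theorem pr_deg {R : Type} (S : Finset R) [Nonempty (Qn n)] :
    pr S (fun γ : R → Qn n => ∃ T : Qn n, sys γ ET S T = ∅) ≤
      Fintype.card (Qn n) * (((Fintype.card (Qn n) : ℝ) - 1) / Fintype.card (Qn n)) ^ S.card := by
  have hq0 : 0 < Fintype.card (Qn n) := Fintype.card_pos
  have hq : (0 : ℝ) < Fintype.card (Qn n) := by exact_mod_cast hq0
  have h1 : (univ.filter fun c : S → Qn n => ∃ T : Qn n, sys (exC S c) ET S T = ∅) ⊆
      (univ : Finset (Qn n)).biUnion fun T => Fintype.piFinset fun _ : S => univ \ ET T := by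
    intro c hc
    rw [mem_filter] at hc
    obtain ⟨-, T, hT⟩ := hc
    rw [mem_biUnion]
    refine ⟨T, mem_univ _, ?_⟩
    rw [Fintype.mem_piFinset]
    intro π
    rw [mem_sdiff]
    refine ⟨mem_univ _, fun h => ?_⟩
    have : π.1 ∈ sys (exC S c) ET S T := by
      refine mem_sys.2 ⟨π.2, ?_⟩
      rw [exC_apply π.2]
      exact h
    rw [hT] at this
    exact absurd this (notMem_empty _)
  have h2 : ∀ T : Qn n, (Fintype.piFinset fun _ : S => (univ : Finset (Qn n)) \ ET T).card ≤
      (Fintype.card (Qn n) - 1) ^ S.card := by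
    intro T
    rw [Fintype.card_piFinset, prod_const, card_univ, Fintype.card_coe]
    refine Nat.pow_le_pow_left ?_ _
    rw [card_sdiff_of_subset (subset_univ _), card_univ]
    have := (ET_ne T).card_pos
    omega
  have h3 := (card_le_card h1).trans card_biUnion_le
  have h4 : (univ.filter fun c : S → Qn n => ∃ T : Qn n, sys (exC S c) ET S T = ∅).card ≤
      Fintype.card (Qn n) * (Fintype.card (Qn n) - 1) ^ S.card := by
    refine h3.trans ((sum_le_sum fun T _ => h2 T).trans ?_)
    rw [sum_const, card_univ, smul_eq_mul]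
  unfold pr
  rw [div_le_iff₀ (by positivity), mul_assoc, div_pow, div_mul_cancel₀ _ (by positivity)]
  have h5 : (((univ.filter fun c : S → Qn n => ∃ T : Qn n, sys (exC S c) ET S T = ∅).card : ℕ) : ℝ) ≤
      ((Fintype.card (Qn n) * (Fintype.card (Qn n) - 1) ^ S.card : ℕ) : ℝ) := by exact_mod_cast h4
  push_cast [Nat.cast_sub (show 1 ≤ Fintype.card (Qn n) from hq0)] at h5
  refine le_trans (le_of_eq ?_) h5
  congr!

/-- QT-MQ -/
theorem t_MQ : S_MQ := by
  intro R SA Gd tt c hSQ hFew n hn _ 𝒯 δ ε hδ hε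
  have hq0 : 0 < Fintype.card (Qn n) := Fintype.card_pos
  have hq : (0 : ℝ) < Fintype.card (Qn n) := by exact_mod_cast hq0
  set q : ℝ := (Fintype.card (Qn n) : ℝ) with hqdef
  have hδ' : 0 < δ / q ^ 2 := by positivity
  obtain ⟨X₁, hX₁⟩ := hSQ 𝒯 (Qn n) (Qn n) (fun T => ET T.1) ET (fam_ET 𝒯)
    (fun T => ET_ne_univ hn T.1) (δ / q ^ 2) (ε / 2) hδ' (by positivity)
  -- the number of elements
  have hr0 : 0 ≤ (q - 1) / q := by
    have : (1 : ℝ) ≤ q := by
      rw [hqdef]
      exact_mod_cast hq0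
    exact div_nonneg (by linarith) hq.le
  have hr1 : (q - 1) / q < 1 := by
    rw [div_lt_one hq]
    linarith
  obtain ⟨m, hm⟩ := exists_pow_lt_of_lt_one (show 0 < δ / q ^ 3 by positivity) hr1
  obtain ⟨X₂, hX₂⟩ := hFew (max m 2) (ε / 2) (by positivity)
  refine ⟨max X₁ X₂, fun X hX => ?_⟩
  have h1 := hX₁ X (le_trans (le_max_left _ _) hX)
  have h2 := hX₂ X (le_trans (le_max_right _ _) hX)
  refine le_trans ?_ (show ε / 2 * X + ε / 2 * X ≤ ε * X by linarith)
  refine le_trans ?_ (add_le_add h1 h2)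
  rw [← Nat.cast_add, Nat.cast_le]
  refine le_trans (card_le_card ?_) (card_union_le _ _)
  intro S hS
  rw [mem_filter] at hS
  obtain ⟨hS, hbad⟩ := hS
  rw [mem_union, mem_filter, mem_filter]
  by_contra hcon
  apply hbad
  rw [not_or] at hcon
  obtain ⟨hc1, hc2⟩ := hcon
  have hc1' := not_lt.1 fun h => hc1 ⟨hS, h⟩
  have hc2' := not_lt.1 fun h => hc2 ⟨hS, h⟩
  have hcard2 : 2 ≤ (S.filter fun π => tt π = 1).card := le_trans (le_max_right _ _) hc2'
  have hcardm : m ≤ S.card := le_trans (le_trans (le_max_left _ _) hc2') (card_filter_le _ _)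
  have hy := pr_class tt S hn hcard2
  rw [← hqdef] at hy
  have hlow : δ / q ^ 2 ≤ δ * pr S (fun γ : R → Qn n => ClC tt γ ET S) := by
    rw [div_eq_mul_one_div]
    exact mul_le_mul_of_nonneg_left hy hδ.le
  refine ⟨lt_of_lt_of_le (by positivity) hy, ?_, ?_⟩
  · have e1 : (fun γ : R → Qn n => ClC tt γ (fun T : 𝒯 => ET T.1) S ∧ ClC tt γ ET S ∧
        GdC Gd γ (fun T : 𝒯 => ET T.1) S) =
        fun γ : R → Qn n => ClC tt γ ET S ∧ ∀ T ∈ 𝒯, Gd (sys γ ET S T) := by
      funext γ
      rw [eq_iff_iff]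
      constructor
      · rintro ⟨-, h3, h4⟩
        exact ⟨h3, fun T hT => h4 ⟨T, hT⟩⟩
      · rintro ⟨h3, h4⟩
        exact ⟨fun T => h3 T.1, h3, fun T => h4 T.1 T.2⟩
    have e2 : (fun γ : R → Qn n => ClC tt γ (fun T : 𝒯 => ET T.1) S ∧ ClC tt γ ET S) =
        fun γ : R → Qn n => ClC tt γ ET S := by
      funext γ
      rw [eq_iff_iff]
      exact ⟨fun h => h.2, fun h => ⟨fun T => h T.1, h⟩⟩
    rw [e1, e2, Fintype.card_coe] at hc1'
    exact hc1'.trans hlow
  · refine le_trans (pr_mono fun γ h => h.2) ((pr_deg S).trans (le_trans ?_ hlow))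
    rw [← hqdef]
    have h3 : ((q - 1) / q) ^ S.card ≤ ((q - 1) / q) ^ m :=
      pow_le_pow_of_le_one hr0 hr1.le hcardm
    have h4 : q * ((q - 1) / q) ^ S.card ≤ q * (δ / q ^ 3) :=
      mul_le_mul_of_nonneg_left (h3.trans hm.le) hq.le
    refine h4.trans (le_of_eq ?_)
    field_simp

end Pool.Agent.N637.QT.MQ
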